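import Pool.Agent.Helper26.Ip.Tools

/-!
# Independent parts of stationary waves: package CH (characteristic functions on `L²`)
-/

set_option autoImplicit false
set_option linter.unusedSectionVars false
open MeasureTheory Filter Topology ProbabilityTheory
open scoped ContDiff ENNReal InnerProductSpace

namespace Pool.Agent.Helper41.Ip

open Pool.Agent.Helper26.Ip
open Complex (I)

noncomputable section

section general

variable {Ω : Type*} [MeasurableSpace Ω] {μ : Measure Ω} [IsProbabilityMeasure μ]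

theorem meas_exp (g : Lp ℝ 2 μ) :
    AEStronglyMeasurable (fun f => Complex.exp (I * ((g f : ℝ) : ℂ))) μ := by
  have h := (Lp.stronglyMeasurable g).measurable
  exact (Complex.measurable_exp.comp
    ((Complex.measurable_ofReal.comp h).const_mul I)).aestronglyMeasurable

theorem norm_exp_one (x : ℝ) : ‖Complex.exp (I * (x : ℂ))‖ = 1 := by
  rw [mul_comm, Complex.norm_exp_ofReal_mul_I]

theorem int_exp (g : Lp ℝ 2 μ) :
    Integrable (fun f => Complex.exp (I * ((g f : ℝ) : ℂ))) μ := by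
  refine (integrable_const (1:ℝ)).mono' (meas_exp g) (Eventually.of_forall fun f => ?_)
  rw [norm_exp_one]

theorem int_one (g : Lp ℝ 2 μ) : Integrable (fun f => g f) μ :=
  (Lp.memLp g).integrable (by norm_num)

theorem meas_kexp (k g : Lp ℝ 2 μ) :
    AEStronglyMeasurable (fun f => (k f : ℂ) * Complex.exp (I * ((g f : ℝ) : ℂ))) μ := by
  have h := (Lp.stronglyMeasurable k).measurable
  exact (Complex.measurable_ofReal.comp h).aestronglyMeasurable.mul (meas_exp g)

theorem int_kexp (k g : Lp ℝ 2 μ) :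
    Integrable (fun f => (k f : ℂ) * Complex.exp (I * ((g f : ℝ) : ℂ))) μ := by
  refine (int_one k).norm.mono' (meas_kexp k g) (Eventually.of_forall fun f => ?_)
  rw [norm_mul, norm_exp_one, mul_one, Complex.norm_real]

theorem int_mul (k g : Lp ℝ 2 μ) : Integrable (fun f => k f * g f) μ :=
  MemLp.integrable_mul (Lp.memLp k) (Lp.memLp g)

theorem norm_exp_diff (a b : ℝ) :
    ‖Complex.exp (I * (a : ℂ)) - Complex.exp (I * (b : ℂ))‖ ≤ |a - b| := by
  have h1 : Complex.exp (I * (a : ℂ)) - Complex.exp (I * (b : ℂ)) =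
      Complex.exp (I * (b : ℂ)) * (Complex.exp (I * ((a - b : ℝ) : ℂ)) - 1) := by
    rw [mul_sub, ← Complex.exp_add, mul_one]
    congr 2
    push_cast
    ring
  rw [h1, norm_mul, norm_exp_one, one_mul, ← Real.norm_eq_abs]
  have := Real.norm_exp_I_mul_ofReal_sub_one_le (x := a - b)
  exact this

theorem int_abs_le (g : Lp ℝ 2 μ) : ∫ f, |g f| ∂μ ≤ ‖g‖ := by
  have h1 : eLpNorm g 1 μ ≤ eLpNorm g 2 μ :=
    eLpNorm_le_eLpNorm_of_exponent_le (by norm_num) (Lp.aestronglyMeasurable g)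
  have h2 : ∫ f, |g f| ∂μ = (eLpNorm g 1 μ).toReal := by
    rw [eLpNorm_one_eq_lintegral_enorm,
      ← integral_norm_eq_lintegral_enorm (Lp.aestronglyMeasurable g)]
    rfl
  rw [h2, Lp.norm_def]
  exact ENNReal.toReal_mono (Lp.eLpNorm_ne_top g) h1

/-- CH2 -/
theorem ch_norm_le (g : Lp ℝ 2 μ) : ‖ch g‖ ≤ 1 := by
  unfold ch
  refine (norm_integral_le_integral_norm _).trans ?_
  simp_rw [norm_exp_one]
  simp

theorem ch_lip (a b : Lp ℝ 2 μ) : ‖ch a - ch b‖ ≤ ‖a - b‖ := by
  unfold ch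
  rw [← integral_sub (int_exp a) (int_exp b)]
  refine (norm_integral_le_integral_norm _).trans ?_
  refine le_trans ?_ (int_abs_le (a - b))
  refine integral_mono_ae ((int_exp a).sub (int_exp b)).norm (int_one (a - b)).abs ?_
  filter_upwards [Lp.coeFn_sub a b] with f hf
  rw [hf]
  exact norm_exp_diff _ _

/-- CH1 -/
theorem ch_cont : Continuous (ch : Lp ℝ 2 μ → ℂ) := by
  refine LipschitzWith.continuous (K := 1) (LipschitzWith.of_dist_le_mul fun a b => ?_)
  rw [dist_eq_norm, dist_eq_norm, NNReal.coe_one, one_mul]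
  exact ch_lip a b

/-- CH3 -/
theorem ch_zero : ch (0 : Lp ℝ 2 μ) = 1 := by
  unfold ch
  have : (fun f => Complex.exp (I * (((0 : Lp ℝ 2 μ) f : ℝ) : ℂ))) =ᵐ[μ] fun _ => (1:ℂ) := by
    filter_upwards [Lp.coeFn_zero ℝ 2 μ] with f hf
    rw [hf]
    simp
  rw [integral_congr_ae this]
  simp

theorem coe_line (g k : Lp ℝ 2 μ) (s : ℝ) :
    (fun f => ((g + s • k : Lp ℝ 2 μ) f : ℝ)) =ᵐ[μ] fun f => g f + s * k f := by
  filter_upwards [Lp.coeFn_add g (s • k), Lp.coeFn_smul s k] with f h1 h2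
  rw [h1, Pi.add_apply, h2, Pi.smul_apply, smul_eq_mul]

/-- CH4 -/
theorem ch_deriv (g k : Lp ℝ 2 μ) (s : ℝ) : HasDerivAt (fun s : ℝ => ch (g + s • k))
    (I * ∫ f, (k f : ℂ) * Complex.exp (I * (((g + s • k : Lp ℝ 2 μ) f : ℝ) : ℂ)) ∂μ) s := by
  have e1 : (fun s : ℝ => ch (g + s • k)) =
      fun s : ℝ => ∫ f, Complex.exp (I * ((g f + s * k f : ℝ) : ℂ)) ∂μ := by
    funext s
    unfold ch
    refine integral_congr_ae ?_
    filter_upwards [coe_line g k s] with f hf
    rw [hf]
  have e2 : I * ∫ f, (k f : ℂ) * Complex.exp (I * (((g + s • k : Lp ℝ 2 μ) f : ℝ) : ℂ)) ∂μ =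
      ∫ f, I * (k f : ℂ) * Complex.exp (I * ((g f + s * k f : ℝ) : ℂ)) ∂μ := by
    rw [← integral_const_mul]
    refine integral_congr_ae ?_
    filter_upwards [coe_line g k s] with f hf
    rw [hf, mul_assoc]
  rw [e1, e2]
  have hmg := (Lp.stronglyMeasurable g).measurable
  have hmk := (Lp.stronglyMeasurable k).measurable
  have hm : ∀ s : ℝ, Measurable fun f : Ω => Complex.exp (I * ((g f + s * k f : ℝ) : ℂ)) := by
    intro s
    exact Complex.measurable_exp.comp ((Complex.measurable_ofReal.comp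
      (hmg.add (hmk.const_mul s))).const_mul I)
  refine (hasDerivAt_integral_of_dominated_loc_of_deriv_le (μ := μ)
    (F := fun (s : ℝ) (f : Ω) => Complex.exp (I * ((g f + s * k f : ℝ) : ℂ)))
    (F' := fun (s : ℝ) (f : Ω) => I * (k f : ℂ) * Complex.exp (I * ((g f + s * k f : ℝ) : ℂ)))
    (bound := fun f => |k f|) (Metric.ball_mem_nhds s one_pos) ?_ ?_ ?_ ?_ ?_ ?_).2
  · exact Eventually.of_forall fun s => (hm s).aestronglyMeasurable
  · refine (integrable_const (1:ℝ)).mono' (hm s).aestronglyMeasurable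
      (Eventually.of_forall fun f => ?_)
    rw [norm_exp_one]
  · exact (((Complex.measurable_ofReal.comp hmk).const_mul I).mul (hm s)).aestronglyMeasurable
  · refine Eventually.of_forall fun f s' _ => ?_
    rw [norm_mul, norm_mul, Complex.norm_I, one_mul, Complex.norm_real, norm_exp_one, mul_one,
      Real.norm_eq_abs]
  · exact (int_one k).abs
  · refine Eventually.of_forall fun f s' _ => ?_
    have h1 : HasDerivAt (fun s : ℝ => ((g f + s * k f : ℝ) : ℂ)) ((k f : ℝ) : ℂ) s' := by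
      have := (((hasDerivAt_id' s').mul_const (k f)).const_add (g f)).ofReal_comp
      simpa using this
    have h2 := (h1.const_mul I).cexp
    refine h2.congr_deriv ?_
    ring

theorem abs_int_mul_le (k g : Lp ℝ 2 μ) : |∫ f, k f * g f ∂μ| ≤ ‖k‖ * ‖g‖ := by
  have h := abs_real_inner_le_norm k g
  rw [L2.inner_def] at h
  have e : ∫ f, inner ℝ (k f) (g f) ∂μ = ∫ f, k f * g f ∂μ := by
    refine integral_congr_ae (Eventually.of_forall fun f => ?_)
    show g f * (starRingEnd ℝ) (k f) = k f * g f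
    simp [mul_comm]
  rwa [e] at h

/-- CH5: the excess is linear and continuous in `k` -/
theorem exL_exists (g : Lp ℝ 2 μ) : ∃ T : Lp ℝ 2 μ →L[ℝ] ℂ, ∀ k, T k = ex g k := by
  let T0 : Lp ℝ 2 μ →ₗ[ℝ] ℂ :=
    { toFun := fun k => ex g k
      map_add' := by
        intro k1 k2
        show ex g (k1 + k2) = ex g k1 + ex g k2
        unfold ex
        have e1 : ∫ f, (((k1 + k2 : Lp ℝ 2 μ) f : ℝ) : ℂ) * Complex.exp (I * ((g f : ℝ) : ℂ)) ∂μ =
            (∫ f, (k1 f : ℂ) * Complex.exp (I * ((g f : ℝ) : ℂ)) ∂μ) +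
            ∫ f, (k2 f : ℂ) * Complex.exp (I * ((g f : ℝ) : ℂ)) ∂μ := by
          rw [← integral_add (int_kexp k1 g) (int_kexp k2 g)]
          refine integral_congr_ae ?_
          filter_upwards [Lp.coeFn_add k1 k2] with f hf
          rw [hf, Pi.add_apply]
          push_cast
          ring
        have e2 : ∫ f, (k1 + k2 : Lp ℝ 2 μ) f * g f ∂μ =
            (∫ f, k1 f * g f ∂μ) + ∫ f, k2 f * g f ∂μ := by
          rw [← integral_add (int_mul k1 g) (int_mul k2 g)]
          refine integral_congr_ae ?_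
          filter_upwards [Lp.coeFn_add k1 k2] with f hf
          rw [hf, Pi.add_apply]
          ring
        rw [e1, e2]
        push_cast
        ring
      map_smul' := by
        intro c k
        show ex g (c • k) = c • ex g k
        unfold ex
        have e1 : ∫ f, (((c • k : Lp ℝ 2 μ) f : ℝ) : ℂ) * Complex.exp (I * ((g f : ℝ) : ℂ)) ∂μ =
            (c : ℂ) * ∫ f, (k f : ℂ) * Complex.exp (I * ((g f : ℝ) : ℂ)) ∂μ := by
          rw [← integral_const_mul]
          refine integral_congr_ae ?_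
          filter_upwards [Lp.coeFn_smul c k] with f hf
          rw [hf, Pi.smul_apply, smul_eq_mul]
          push_cast
          ring
        have e2 : ∫ f, (c • k : Lp ℝ 2 μ) f * g f ∂μ = c * ∫ f, k f * g f ∂μ := by
          rw [← integral_const_mul]
          refine integral_congr_ae ?_
          filter_upwards [Lp.coeFn_smul c k] with f hf
          rw [hf, Pi.smul_apply, smul_eq_mul]
          ring
        rw [e1, e2, Complex.real_smul]
        push_cast
        ring }
  refine ⟨T0.mkContinuous (1 + ‖g‖) ?_, fun k => rfl⟩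
  intro k
  show ‖ex g k‖ ≤ (1 + ‖g‖) * ‖k‖
  unfold ex
  have h1 : ‖∫ f, (k f : ℂ) * Complex.exp (I * ((g f : ℝ) : ℂ)) ∂μ‖ ≤ ‖k‖ := by
    refine (norm_integral_le_integral_norm _).trans ?_
    simp_rw [norm_mul, norm_exp_one, mul_one, Complex.norm_real, Real.norm_eq_abs]
    exact int_abs_le k
  have h2 : ‖I * ((∫ f, k f * g f ∂μ : ℝ) : ℂ) * ch g‖ ≤ ‖k‖ * ‖g‖ := by
    rw [norm_mul, norm_mul, Complex.norm_I, one_mul, Complex.norm_real, Real.norm_eq_abs]
    calc |∫ f, k f * g f ∂μ| * ‖ch g‖ ≤ (‖k‖ * ‖g‖) * 1 :=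
          mul_le_mul (abs_int_mul_le k g) (ch_norm_le g) (norm_nonneg _) (by positivity)
      _ = ‖k‖ * ‖g‖ := mul_one _
  calc _ ≤ _ := norm_sub_le _ _
    _ ≤ ‖k‖ + ‖k‖ * ‖g‖ := add_le_add h1 h2
    _ = (1 + ‖g‖) * ‖k‖ := by ring

/-- CH6 -/
theorem ex_zero_left (k : Lp ℝ 2 μ) (hk : ∫ f, k f ∂μ = 0) : ex 0 k = 0 := by
  unfold ex
  have e1 : ∫ f, (k f : ℂ) * Complex.exp (I * (((0 : Lp ℝ 2 μ) f : ℝ) : ℂ)) ∂μ =
      ((∫ f, k f ∂μ : ℝ) : ℂ) := by
    rw [← integral_complex_ofReal]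
    refine integral_congr_ae ?_
    filter_upwards [Lp.coeFn_zero ℝ 2 μ] with f hf
    rw [hf]
    simp
  have e2 : ∫ f, k f * (0 : Lp ℝ 2 μ) f ∂μ = 0 := by
    have : (fun f => k f * (0 : Lp ℝ 2 μ) f) =ᵐ[μ] fun _ => (0:ℝ) := by
      filter_upwards [Lp.coeFn_zero ℝ 2 μ] with f hf
      rw [hf]
      simp
    rw [integral_congr_ae this]
    simp
  rw [e1, e2, hk]
  simp

/-- CH7: independence, in terms of characteristic functions -/
theorem ex_add {a b k : Lp ℝ 2 μ} (hind : ∀ s : ℝ, ch (a + s • k + b) = ch (a + s • k) * ch b)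
    (ho : ∫ f, k f * b f ∂μ = 0) : ex (a + b) k = ch b * ex a k := by
  have h0 : ch (a + b) = ch a * ch b := by
    have := hind 0
    simpa using this
  have d1 := ch_deriv (a + b) k 0
  have d2 := (ch_deriv a k 0).mul_const (ch b)
  have e : (fun s : ℝ => ch (a + b + s • k)) = fun s : ℝ => ch (a + s • k) * ch b := by
    funext s
    rw [← hind s]
    congr 1
    abel
  rw [e] at d1
  have h1 := d1.unique d2
  simp only [zero_smul, add_zero] at h1
  have h2 : ∫ f, (k f : ℂ) * Complex.exp (I * (((a + b : Lp ℝ 2 μ) f : ℝ) : ℂ)) ∂μ =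
      (∫ f, (k f : ℂ) * Complex.exp (I * ((a f : ℝ) : ℂ)) ∂μ) * ch b := by
    rw [mul_assoc] at h1
    exact mul_left_cancel₀ Complex.I_ne_zero h1
  have h3 : ∫ f, k f * (a + b : Lp ℝ 2 μ) f ∂μ = ∫ f, k f * a f ∂μ := by
    have : ∫ f, k f * (a + b : Lp ℝ 2 μ) f ∂μ = (∫ f, k f * a f ∂μ) + ∫ f, k f * b f ∂μ := by
      rw [← integral_add (int_mul k a) (int_mul k b)]
      refine integral_congr_ae ?_
      filter_upwards [Lp.coeFn_add a b] with f hf
      rw [hf, Pi.add_apply]
      ring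
    rw [this, ho, add_zero]
  unfold ex
  rw [h2, h3, h0]
  ring

/-- CH8 -/
theorem ch_of_indep {a b : Lp ℝ 2 μ} (h : IndepFun a b μ) : ch (a + b) = ch a * ch b := by
  have hm : Measurable fun x : ℝ => Complex.exp (I * (x : ℂ)) :=
    Complex.measurable_exp.comp (Complex.measurable_ofReal.const_mul I)
  have h1 := h.comp hm hm
  have h2 := h1.integral_mul_eq_mul_integral (meas_exp a) (meas_exp b)
  unfold ch
  have e : ∫ f, Complex.exp (I * (((a + b : Lp ℝ 2 μ) f : ℝ) : ℂ)) ∂μ =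
      ∫ f, (((fun x : ℝ => Complex.exp (I * (x : ℂ))) ∘ a) *
        ((fun x : ℝ => Complex.exp (I * (x : ℂ))) ∘ b)) f ∂μ := by
    refine integral_congr_ae ?_
    filter_upwards [Lp.coeFn_add a b] with f hf
    rw [hf]
    simp only [Pi.add_apply, Pi.mul_apply, Function.comp]
    rw [← Complex.exp_add]
    congr 1
    push_cast
    ring
  rw [e, h2]
  rfl

/-- CH9 -/
theorem indep_of_ch {a b : Lp ℝ 2 μ}
    (h : ∀ s t : ℝ, ch (s • a + t • b) = ch (s • a) * ch (t • b)) : IndepFun a b μ := by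
  have ha := (Lp.stronglyMeasurable a).measurable
  have hb := (Lp.stronglyMeasurable b).measurable
  rw [indepFun_iff_charFun_prod ha.aemeasurable hb.aemeasurable]
  intro t
  have key : ∀ (c : Lp ℝ 2 μ) (s : ℝ), charFun (μ.map c) s = ch (s • c) := by
    intro c s
    have hc := (Lp.stronglyMeasurable c).measurable
    rw [charFun_apply, integral_map hc.aemeasurable (by fun_prop)]
    unfold ch
    refine integral_congr_ae ?_
    filter_upwards [Lp.coeFn_smul s c] with f hf
    rw [hf, Pi.smul_apply, smul_eq_mul]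
    congr 1
    simp [mul_comm]
  rw [key, key, ← h, charFun_apply, integral_map (by fun_prop) (by fun_prop)]
  unfold ch
  refine integral_congr_ae ?_
  filter_upwards [Lp.coeFn_add (t.ofLp.1 • a) (t.ofLp.2 • b), Lp.coeFn_smul t.ofLp.1 a,
    Lp.coeFn_smul t.ofLp.2 b] with f h1 h2 h3
  rw [h1, Pi.add_apply, h2, h3, Pi.smul_apply, Pi.smul_apply, smul_eq_mul, smul_eq_mul]
  congr 1
  rw [WithLp.prod_inner_apply]
  simp [mul_comm]

end general

end

end Pool.Agent.Helper41.Ip
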