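import Pool.Agent.Helper41.Ip.CH

/-!
# Independent parts of stationary waves: package PR (independence of families)
-/

set_option autoImplicit false
set_option linter.unusedSectionVars false
open MeasureTheory Filter Topology ProbabilityTheory
open scoped ContDiff ENNReal InnerProductSpace

namespace Pool.Agent.Helper41.Ip

open Pool.Agent.Helper26.Ip
open Complex (I)

noncomputable section

section general

variable {Ω : Type*} [MeasurableSpace Ω] {μ : Measure Ω} [IsProbabilityMeasure μ]

theorem sum_coe {K : Type*} (W : K → Ω → ℝ) (hW : ∀ k, MemLp (W k) 2 μ) (t : K → ℝ)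
    (s : Finset K) : ((∑ k ∈ s, t k • (hW k).toLp (W k) : Lp ℝ 2 μ) : Ω → ℝ) =ᵐ[μ]
      fun f => ∑ k ∈ s, t k * W k f := by
  classical
  induction s using Finset.induction with
  | empty =>
    simp only [Finset.sum_empty]
    exact Lp.coeFn_zero ℝ 2 μ
  | insert i s hi ih =>
    rw [Finset.sum_insert hi]
    filter_upwards [Lp.coeFn_add (t i • (hW i).toLp (W i)) (∑ j ∈ s, t j • (hW j).toLp (W j)),
      Lp.coeFn_smul (t i) ((hW i).toLp (W i)), (hW i).coeFn_toLp, ih] with f h1 h3 h4 h5
    rw [h1, Pi.add_apply, h3, Pi.smul_apply, h4, h5, Finset.sum_insert hi, smul_eq_mul]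

theorem ch_add_sum {K K' : Type*} [Fintype K] [Fintype K'] (W : K → Ω → ℝ)
    (hW : ∀ k, MemLp (W k) 2 μ) (t : K → ℝ) (W' : K' → Ω → ℝ)
    (hW' : ∀ k, MemLp (W' k) 2 μ) (t' : K' → ℝ) :
    ch ((∑ k, t k • (hW k).toLp (W k)) + ∑ k, t' k • (hW' k).toLp (W' k) : Lp ℝ 2 μ) =
      ∫ f, Complex.exp (((∑ k, W k f * t k) + ∑ k, W' k f * t' k : ℝ) * I) ∂μ := by
  unfold ch
  refine integral_congr_ae ?_
  filter_upwards [Lp.coeFn_add (∑ k, t k • (hW k).toLp (W k)) (∑ k, t' k • (hW' k).toLp (W' k)),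
    sum_coe W hW t Finset.univ, sum_coe W' hW' t' Finset.univ] with f h1 h2 h3
  rw [h1, Pi.add_apply, h2, h3, mul_comm I]
  simp only [mul_comm]

theorem ch_sum {K : Type*} [Fintype K] (W : K → Ω → ℝ)
    (hW : ∀ k, MemLp (W k) 2 μ) (t : K → ℝ) :
    ch (∑ k, t k • (hW k).toLp (W k) : Lp ℝ 2 μ) =
      ∫ f, Complex.exp ((∑ k, W k f * t k : ℝ) * I) ∂μ := by
  unfold ch
  refine integral_congr_ae ?_
  filter_upwards [sum_coe W hW t Finset.univ] with f h2
  rw [h2, mul_comm I]
  simp only [mul_comm]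

theorem dual_eq {K : Type*} [Fintype K] [DecidableEq K] (L : (K → ℝ) →L[ℝ] ℝ) (x : K → ℝ) :
    L x = ∑ k, x k * L (Pi.single k 1) := by
  have h := LinearMap.pi_apply_eq_sum_univ (L : (K → ℝ) →ₗ[ℝ] ℝ) x
  have h' : L x = ∑ i, x i • L (fun j => if i = j then 1 else 0) := h
  rw [h']
  refine Finset.sum_congr rfl fun k _ => ?_
  rw [smul_eq_mul]
  congr 2
  funext j
  rw [Pi.single_apply]
  simp only [eq_comm]

/-- PR -/
theorem process_indep {ι κ : Type} (X : ι → Ω → ℝ) (Y : κ → Ω → ℝ)
    (hX : ∀ i, MemLp (X i) 2 μ) (hY : ∀ j, MemLp (Y j) 2 μ)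
    (A B : Submodule ℝ (Lp ℝ 2 μ))
    (hA : A = (Submodule.span ℝ (Set.range fun i => (hX i).toLp _)).topologicalClosure)
    (hB : B = (Submodule.span ℝ (Set.range fun j => (hY j).toLp _)).topologicalClosure) :
    IndepFun (fun (f : Ω) (i : ι) => X i f) (fun (f : Ω) (j : κ) => Y j f) μ ↔
      ∀ a ∈ A, ∀ b ∈ B, ch (a + b) = ch a * ch b := by
  classical
  subst hA hB
  constructor
  · intro h
    have hfin : ∀ a ∈ Submodule.span ℝ (Set.range fun i => (hX i).toLp (X i)),
        ∀ b ∈ Submodule.span ℝ (Set.range fun j => (hY j).toLp (Y j)),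
          ch (a + b) = ch a * ch b := by
      intro a ha b hb
      obtain ⟨c, rfl⟩ := Finsupp.mem_span_range_iff_exists_finsupp.1 ha
      obtain ⟨d, rfl⟩ := Finsupp.mem_span_range_iff_exists_finsupp.1 hb
      refine ch_of_indep ?_
      have h1 := h.comp (φ := fun x : ι → ℝ => ∑ i ∈ c.support, c i * x i)
        (ψ := fun x : κ → ℝ => ∑ i ∈ d.support, d i * x i)
        (Finset.measurable_sum _ fun i _ => (measurable_pi_apply i).const_mul _)
        (Finset.measurable_sum _ fun i _ => (measurable_pi_apply i).const_mul _)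
      exact h1.congr (sum_coe X hX c c.support).symm (sum_coe Y hY d d.support).symm
    have h2 : ∀ a ∈ (Submodule.span ℝ (Set.range fun i => (hX i).toLp (X i))).topologicalClosure,
        ∀ b ∈ Submodule.span ℝ (Set.range fun j => (hY j).toLp (Y j)),
          ch (a + b) = ch a * ch b := by
      intro a ha b hb
      have hcl : IsClosed {a : Lp ℝ 2 μ | ch (a + b) = ch a * ch b} :=
        isClosed_eq (ch_cont.comp (continuous_id.add continuous_const))
          (ch_cont.mul continuous_const)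
      have hsub : ((Submodule.span ℝ (Set.range fun i => (hX i).toLp (X i)) :
          Submodule ℝ (Lp ℝ 2 μ)) : Set (Lp ℝ 2 μ)) ⊆
          {a : Lp ℝ 2 μ | ch (a + b) = ch a * ch b} := fun a ha => hfin a ha b hb
      exact (hcl.closure_subset_iff.2 hsub) ha
    intro a ha b hb
    have hcl : IsClosed {b : Lp ℝ 2 μ | ch (a + b) = ch a * ch b} :=
      isClosed_eq (ch_cont.comp (continuous_const.add continuous_id))
        (continuous_const.mul ch_cont)
    have hsub : ((Submodule.span ℝ (Set.range fun j => (hY j).toLp (Y j)) :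
        Submodule ℝ (Lp ℝ 2 μ)) : Set (Lp ℝ 2 μ)) ⊆
        {b : Lp ℝ 2 μ | ch (a + b) = ch a * ch b} := fun b hb => h2 a ha b hb
    exact (hcl.closure_subset_iff.2 hsub) hb
  · intro h
    refine IndepFun.process_indepFun_process₀ (fun i => (hX i).aestronglyMeasurable.aemeasurable)
      (fun j => (hY j).aestronglyMeasurable.aemeasurable) fun I' J' => ?_
    have mX : AEMeasurable (fun (f : Ω) (i : I') => X i f) μ :=
      aemeasurable_pi_lambda _ fun i => (hX i).aestronglyMeasurable.aemeasurable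
    have mY : AEMeasurable (fun (f : Ω) (j : J') => Y j f) μ :=
      aemeasurable_pi_lambda _ fun j => (hY j).aestronglyMeasurable.aemeasurable
    rw [indepFun_iff_charFunDual_prod mX mY]
    intro L
    set s : I' → ℝ := fun i => (L.comp (.inl ℝ (I' → ℝ) (J' → ℝ))) (Pi.single i 1) with hs
    set t : J' → ℝ := fun j => (L.comp (.inr ℝ (I' → ℝ) (J' → ℝ))) (Pi.single j 1) with ht
    have ha : (∑ i : I', s i • (hX i).toLp (X i) : Lp ℝ 2 μ) ∈
        (Submodule.span ℝ (Set.range fun i => (hX i).toLp (X i))).topologicalClosure :=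
      Submodule.le_topologicalClosure _ (Submodule.sum_mem _ fun i _ =>
        Submodule.smul_mem _ _ (Submodule.subset_span ⟨i, rfl⟩))
    have hb : (∑ j : J', t j • (hY j).toLp (Y j) : Lp ℝ 2 μ) ∈
        (Submodule.span ℝ (Set.range fun j => (hY j).toLp (Y j))).topologicalClosure :=
      Submodule.le_topologicalClosure _ (Submodule.sum_mem _ fun j _ =>
        Submodule.smul_mem _ _ (Submodule.subset_span ⟨j, rfl⟩))
    have hh := h _ ha _ hb
    rw [ch_add_sum (fun i : I' => X i) (fun i : I' => hX i) s (fun j : J' => Y j)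
      (fun j : J' => hY j) t, ch_sum (fun i : I' => X i) (fun i : I' => hX i) s,
      ch_sum (fun j : J' => Y j) (fun j : J' => hY j) t] at hh
    rw [charFunDual_apply, charFunDual_apply, charFunDual_apply,
      integral_map (mX.prodMk mY) (by fun_prop), integral_map mX (by fun_prop),
      integral_map mY (by fun_prop)]
    have e1 : ∀ x : (I' → ℝ), (L.comp (.inl ℝ (I' → ℝ) (J' → ℝ))) x = ∑ i, x i * s i :=
      fun x => dual_eq _ x
    have e2 : ∀ y : (J' → ℝ), (L.comp (.inr ℝ (I' → ℝ) (J' → ℝ))) y = ∑ j, y j * t j :=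
      fun y => dual_eq _ y
    have e3 : ∀ (x : I' → ℝ) (y : J' → ℝ), L (x, y) = (∑ i, x i * s i) + ∑ j, y j * t j := by
      intro x y
      rw [← e1, ← e2]
      have : (x, y) = ((x, 0) : (I' → ℝ) × (J' → ℝ)) + (0, y) := by simp
      rw [this, map_add]
      rfl
    simp only [e1, e2, e3]
    exact hh

end general

end

end Pool.Agent.Helper41.Ip
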