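import Pool.Agent.Helper41.Ip.CH
import Pool.Agent.Helper88.Ip.Cst

/-!
# Independent parts of stationary waves: package GAUSS
-/

set_option autoImplicit false
set_option linter.unusedSectionVars false
open MeasureTheory Filter Topology ProbabilityTheory
open scoped ContDiff ENNReal InnerProductSpace

namespace Pool.Agent.Helper41.Ip

open Pool.Agent.N661.BR (MW J0 IsStationary shift meas_eval meas_shift IsGaussianLaw lin meas_lin)
open Pool.Agent.Helper37.BC
open Pool.Agent.Helper26.Ip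
open Complex (I)

noncomputable section

variable {μ : Measure MW} [IsProbabilityMeasure μ]

theorem int_shift_C (hs : IsStationary μ) {F : MW → ℂ} (hF : AEStronglyMeasurable F μ) (w : ℂ) :
    ∫ f, F (shift w f) ∂μ = ∫ f, F f ∂μ := by
  conv_rhs => rw [← hs w]
  rw [integral_map (meas_shift w).aemeasurable (by rw [hs w]; exact hF)]

theorem int_shift_R (hs : IsStationary μ) {F : MW → ℝ} (hF : AEStronglyMeasurable F μ) (w : ℂ) :
    ∫ f, F (shift w f) ∂μ = ∫ f, F f ∂μ := by
  conv_rhs => rw [← hs w]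
  rw [integral_map (meas_shift w).aemeasurable (by rw [hs w]; exact hF)]

/-- G1 -/
theorem S_ch (hs : IsStationary μ) (x : ℂ) (g : Lp ℝ 2 μ) : ch (S hs x g) = ch g := by
  unfold ch
  rw [← int_shift_C hs (meas_exp g) x]
  refine integral_congr_ae ?_
  filter_upwards [S_coe hs x g] with f hf
  rw [hf]

/-- G2 -/
theorem S_ex (hs : IsStationary μ) (x : ℂ) (g k : Lp ℝ 2 μ) :
    ex (S hs x g) (S hs x k) = ex g k := by
  have e1 : ∫ f, ((S hs x k) f : ℂ) * Complex.exp (I * (((S hs x g) f : ℝ) : ℂ)) ∂μ =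
      ∫ f, (k f : ℂ) * Complex.exp (I * ((g f : ℝ) : ℂ)) ∂μ := by
    rw [← int_shift_C hs (meas_kexp k g) x]
    refine integral_congr_ae ?_
    filter_upwards [S_coe hs x g, S_coe hs x k] with f hf hk
    rw [hf, hk]
  have e2 : ∫ f, (S hs x k) f * (S hs x g) f ∂μ = ∫ f, k f * g f ∂μ := by
    rw [← int_shift_R hs (int_mul k g).aestronglyMeasurable x]
    refine integral_congr_ae ?_
    filter_upwards [S_coe hs x g, S_coe hs x k] with f hf hk
    rw [hf, hk]
  unfold ex
  rw [e1, e2, S_ch]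

theorem mean_eval (hs : IsStationary μ) (h2 : Integrable (fun f : MW => f 0 ^ 2) μ) (y : ℂ) :
    ∫ f : MW, f y ∂μ = 0 := by
  have hconst : ∀ y : ℂ, ∫ f : MW, f y ∂μ = ∫ f : MW, f 0 ∂μ := by
    intro y
    rw [← int_shift hs (F := fun f : MW => f 0) (meas_eval 0) y]
    refine integral_congr_ae (Eventually.of_forall fun f => ?_)
    show f y = (shift y f) 0
    rw [shift_apply, zero_add]
  have h1 : MemLp (fun _ : MW => (1:ℝ)) 2 μ := memLp_const 1
  have h3 := Pool.Agent.Helper88.Ip.const_zero hs h2 h1 (c := ∫ f : MW, f 0 ∂μ) fun y => by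
    unfold UU
    simp only [mul_one]
    exact hconst y
  rw [hconst, h3]

theorem int_cont : Continuous fun g : Lp ℝ 2 μ => ∫ f, g f ∂μ := by
  refine LipschitzWith.continuous (K := 1) (LipschitzWith.of_dist_le_mul fun a b => ?_)
  rw [dist_eq_norm, dist_eq_norm, NNReal.coe_one, one_mul, ← integral_sub (int_one a) (int_one b)]
  refine (norm_integral_le_integral_norm _).trans ?_
  refine le_trans (le_of_eq ?_) (int_abs_le (a - b))
  refine integral_congr_ae ?_
  filter_upwards [Lp.coeFn_sub a b] with f hf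
  rw [hf]
  rfl

/-- G3 -/
theorem mean_values (hs : IsStationary μ) (h2 : Integrable (fun f : MW => f 0 ^ 2) μ)
    {g : Lp ℝ 2 μ} (hg : g ∈ values μ) : ∫ f, g f ∂μ = 0 := by
  refine values_induction hs h2 (p := fun g : Lp ℝ 2 μ => ∫ f, g f ∂μ = 0) ?_ ?_ ?_ ?_ ?_ hg
  · exact isClosed_eq int_cont continuous_const
  · intro y
    rw [integral_congr_ae (V_coe hs h2 y)]
    exact mean_eval hs h2 y
  · rw [integral_congr_ae (Lp.coeFn_zero ℝ 2 μ)]
    simp
  · intro g k hg hk
    rw [integral_congr_ae (Lp.coeFn_add g k)]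
    simp only [Pi.add_apply]
    rw [integral_add (int_one g) (int_one k), hg, hk, add_zero]
  · intro t g hg
    rw [integral_congr_ae (Lp.coeFn_smul t g)]
    simp only [Pi.smul_apply]
    rw [integral_smul, hg, smul_zero]

/-- the finite combinations -/
def cmb (hs : IsStationary μ) (h2 : Integrable (fun f : MW => f 0 ^ 2) μ) {k : ℕ}
    (w : Fin k → ℂ) (t : Fin k → ℝ) : Lp ℝ 2 μ := ∑ j, t j • V hs h2 (w j)

theorem cmb_coe (hs : IsStationary μ) (h2 : Integrable (fun f : MW => f 0 ^ 2) μ) {k : ℕ}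
    (w : Fin k → ℂ) (t : Fin k → ℝ) : cmb hs h2 w t =ᵐ[μ] lin w t := by
  have h : ∀ s : Finset (Fin k), (∑ j ∈ s, t j • V hs h2 (w j) : Lp ℝ 2 μ) =ᵐ[μ]
      fun f : MW => ∑ j ∈ s, t j * f (w j) := by
    classical
    intro s
    induction s using Finset.induction with
    | empty =>
      simp only [Finset.sum_empty]
      exact Lp.coeFn_zero ℝ 2 μ
    | insert i s hi ih =>
      rw [Finset.sum_insert hi]
      filter_upwards [Lp.coeFn_add (t i • V hs h2 (w i)) (∑ j ∈ s, t j • V hs h2 (w j)),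
        Lp.coeFn_smul (t i) (V hs h2 (w i)), V_coe hs h2 (w i), ih] with f h1 h3 h4 h5
      rw [h1, Pi.add_apply, h3, Pi.smul_apply, h4, h5, Finset.sum_insert hi, smul_eq_mul]
  exact h Finset.univ

theorem cmb_mem (hs : IsStationary μ) (h2 : Integrable (fun f : MW => f 0 ^ 2) μ) {k : ℕ}
    (w : Fin k → ℂ) (t : Fin k → ℝ) : cmb hs h2 w t ∈ values μ :=
  Submodule.sum_mem _ fun j _ => Submodule.smul_mem _ _ (V_mem hs h2 _)

theorem ch_cmb (hs : IsStationary μ) (h2 : Integrable (fun f : MW => f 0 ^ 2) μ) {k : ℕ}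
    (w : Fin k → ℂ) (t : Fin k → ℝ) :
    ch (cmb hs h2 w t) = ∫ f : MW, Complex.exp (I * (lin w t f : ℝ)) ∂μ := by
  unfold ch
  refine integral_congr_ae ?_
  filter_upwards [cmb_coe hs h2 w t] with f hf
  rw [hf]

theorem excess_eq (hs : IsStationary μ) (h2 : Integrable (fun f : MW => f 0 ^ 2) μ) {k : ℕ}
    (w : Fin k → ℂ) (t : Fin k → ℝ) (y : ℂ) :
    excess μ w t y = ex (cmb hs h2 w t) (V hs h2 y) := by
  unfold excess ex
  rw [ch_cmb]
  congr 1
  · refine integral_congr_ae ?_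
    filter_upwards [cmb_coe hs h2 w t, V_coe hs h2 y] with f hf hy
    rw [hf, hy]
  · congr 3
    refine integral_congr_ae ?_
    filter_upwards [cmb_coe hs h2 w t, V_coe hs h2 y] with f hf hy
    rw [hf, hy]

/-- G4 -/
theorem gauss_of_ex (hs : IsStationary μ) (h2 : Integrable (fun f : MW => f 0 ^ 2) μ)
    (h : ∀ c ∈ values μ, ∀ k ∈ values μ, ex c k = 0) : IsGaussianLaw μ := by
  intro k w t
  refine gauss_of_excess hs h2 w t fun s => ?_
  have h0 : ∀ y, excess μ w (fun j => s * t j) y = 0 := fun y => by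
    rw [excess_eq hs h2]
    exact h _ (cmb_mem hs h2 _ _) _ (V_mem hs h2 _)
  intro ε hε
  refine (Eventually.frequently ?_)
  filter_upwards [eventually_ge_atTop (0:ℝ)] with R hR
  simp only [h0, norm_zero]
  simp
  positivity

theorem norm_sq_eq (c : Lp ℝ 2 μ) : ‖c‖ ^ 2 = ∫ f, c f ^ 2 ∂μ := by
  rw [← real_inner_self_eq_norm_sq, L2.inner_def]
  refine integral_congr_ae (Eventually.of_forall fun f => ?_)
  show c f * (starRingEnd ℝ) (c f) = c f ^ 2
  simp [sq]

/-- the span of the values consists of the finite combinations -/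
theorem span_cmb (hs : IsStationary μ) (h2 : Integrable (fun f : MW => f 0 ^ 2) μ)
    {c : Lp ℝ 2 μ} (hc : c ∈ Submodule.span ℝ (Set.range (V hs h2))) :
    ∃ (k : ℕ) (w : Fin k → ℂ) (t : Fin k → ℝ), c = cmb hs h2 w t := by
  induction hc using Submodule.span_induction with
  | mem x hx =>
    obtain ⟨y, rfl⟩ := hx
    exact ⟨1, fun _ => y, fun _ => 1, by unfold cmb; simp⟩
  | zero => exact ⟨0, fun _ => 0, fun _ => 0, by unfold cmb; simp⟩
  | add x y _ _ hx hy =>
    obtain ⟨k, w, t, rfl⟩ := hx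
    obtain ⟨k', w', t', rfl⟩ := hy
    refine ⟨k + k', Fin.append w w', Fin.append t t', ?_⟩
    unfold cmb
    rw [Fin.sum_univ_add]
    simp only [Fin.append_left, Fin.append_right]
  | smul a x _ hx =>
    obtain ⟨k, w, t, rfl⟩ := hx
    refine ⟨k, w, fun j => a * t j, ?_⟩
    unfold cmb
    rw [Finset.smul_sum]
    exact Finset.sum_congr rfl fun j _ => by rw [smul_smul]

/-- G5 -/
theorem ch_gauss (hs : IsStationary μ) (h2 : Integrable (fun f : MW => f 0 ^ 2) μ)
    (hG : IsGaussianLaw μ) {c : Lp ℝ 2 μ} (hc : c ∈ values μ) :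
    ch c = Complex.exp (-((‖c‖ ^ 2 / 2 : ℝ) : ℂ)) := by
  have hcl : IsClosed {c : Lp ℝ 2 μ | ch c = Complex.exp (-((‖c‖ ^ 2 / 2 : ℝ) : ℂ))} := by
    refine isClosed_eq ch_cont ?_
    exact Complex.continuous_exp.comp (Complex.continuous_ofReal.comp
      ((continuous_norm.pow 2).div_const 2)).neg
  rw [values_eq hs h2] at hc
  have h1 : ((Submodule.span ℝ (Set.range (V hs h2)) : Submodule ℝ (Lp ℝ 2 μ)) :
      Set (Lp ℝ 2 μ)) ⊆ {c | ch c = Complex.exp (-((‖c‖ ^ 2 / 2 : ℝ) : ℂ))} := by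
    intro c hc
    obtain ⟨k, w, t, rfl⟩ := span_cmb hs h2 hc
    show ch _ = _
    have hmX := meas_lin w t
    have e1 : ch (cmb hs h2 w t) = charFun (μ.map (lin w t)) 1 := by
      rw [ch_cmb, charFun_apply_real, integral_map hmX.aemeasurable (by fun_prop)]
      refine integral_congr_ae (Eventually.of_forall fun f => ?_)
      show Complex.exp _ = Complex.exp _
      congr 1
      push_cast
      ring
    have e2 : ‖cmb hs h2 w t‖ ^ 2 = ∫ f, lin w t f ^ 2 ∂μ := by
      rw [norm_sq_eq]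
      refine integral_congr_ae ?_
      filter_upwards [cmb_coe hs h2 w t] with f hf
      rw [hf]
    rw [e1, hG k w t, charFun_gaussianReal,
      Real.coe_toNNReal _ (integral_nonneg fun f => sq_nonneg _), e2]
    congr 1
    push_cast
    ring
  exact (hcl.closure_subset_iff.2 h1) hc

end

end Pool.Agent.Helper41.Ip
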